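import Pool.Agent.H74.Koebe.Count

/-! Length-area counting with truncated radii. -/

namespace Pool.Agent.H99.KX

open Pool.Agent.H74.Koebe MeasureTheory ENNReal

/-- Truncated radii: disjoint discs which meet a disc of radius `ρ`. -/
lemma area_min {V : Type*} [Countable V] (B : Set V) (z : V → ℂ) (r : V → ℝ) (hr : ∀ v, 0 < r v)
    (hdis : ∀ u v, u ≠ v → Disjoint (Metric.ball (z u) (r u)) (Metric.ball (z v) (r v)))
    {c : ℂ} {ρ τ : ℝ} (hρ : 0 ≤ ρ) (hτ : 0 < τ) (hB : ∀ v ∈ B, dist (z v) c ≤ ρ + r v) :
    ∑' v, B.indicator (fun v => ENNReal.ofReal ((min (r v) τ) ^ 2)) v ≤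
      ENNReal.ofReal ((ρ + 2 * τ) ^ 2) := by
  have hex : ∀ v, ∃ y : ℂ, dist (z v) y ≤ r v - min (r v) τ ∧
      (v ∈ B → dist y c ≤ ρ + min (r v) τ) := by
    intro v
    by_cases hv : v ∈ B
    · have hm : 0 < min (r v) τ := lt_min (hr v) hτ
      obtain ⟨y, h1, h2⟩ := exists_dist_le_le (x := z v) (z := c) (δ := r v - min (r v) τ)
        (ε := ρ + min (r v) τ) (sub_nonneg.2 (min_le_left _ _)) (by linarith) (by
          have := hB v hv
          linarith)
      exact ⟨y, h1, fun _ => h2⟩
    · exact ⟨z v, by rw [dist_self]; exact sub_nonneg.2 (min_le_left _ _), fun h => absurd h hv⟩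
  choose y hy1 hy2 using hex
  have hsub : ∀ v, Metric.ball (y v) (min (r v) τ) ⊆ Metric.ball (z v) (r v) := by
    intro v
    apply Metric.ball_subset_ball'
    have := hy1 v
    rw [dist_comm] at this
    linarith
  apply area_le B y (fun v => min (r v) τ) (fun v => lt_min (hr v) hτ)
    (fun u v huv => (hdis u v huv).mono (hsub u) (hsub v)) (c := c) (by positivity)
  intro v hv
  apply Metric.ball_subset_ball'
  have h1 := hy2 v hv
  have h2 := min_le_right (r v) τ
  linarith

/-- The vertices relevant for the block `[T, 16 T]`. -/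
def blk {V : Type*} (z : V → ℂ) (r : V → ℝ) (w : ℂ) (c T : ℝ) : Set V :=
  {v | dist (z v) w ≤ 16 * T + r v ∧ T ≤ dist (z v) w + r v ∧ c * r v ≤ 16 * T}

/-- The discs hit by the circle of radius `t`. -/
def hset {V : Type*} (z : V → ℂ) (r : V → ℝ) (w : ℂ) (c t : ℝ) : Set V :=
  {v | |dist (z v) w - t| ≤ r v ∧ c * r v ≤ t}

theorem blk_bound {V : Type*} [Countable V] {z : V → ℂ} {r R : V → ℝ} (hr : ∀ v, 0 < r v)
    (hR : ∀ v, 0 ≤ R v)
    (hdis : ∀ u v, u ≠ v → Disjoint (Metric.ball (z u) (r u)) (Metric.ball (z v) (r v)))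
    {w : ℂ} {c T e : ℝ} (hT : 0 < T) (he : 0 < e)
    (h : ∀ t ∈ Set.Icc T (16 * T), ENNReal.ofReal e ≤ ∑' v,
      (hset z r w c t).indicator (fun v => ENNReal.ofReal (2 * R v)) v) :
    ENNReal.ofReal (225 / 15376 * e ^ 2) ≤
      ∑' v, (blk z r w c T).indicator (fun v => ENNReal.ofReal ((R v) ^ 2)) v := by
  set B := blk z r w c T with hB
  set τ : ℝ := 15 / 2 * T with hτ
  have hτ0 : 0 < τ := by positivity
  set H : V → ℝ → ℝ≥0∞ := fun v t => B.indicator (fun v =>
    (Set.Icc (dist (z v) w - r v) (dist (z v) w + r v) ∩ Set.Icc T (16 * T)).indicator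
      (fun _ => ENNReal.ofReal (2 * R v)) t) v with hH
  have hint : ∀ v, ∫⁻ t, H v t ≤
      B.indicator (fun v => ENNReal.ofReal (4 * (R v * min (r v) τ))) v := by
    intro v
    by_cases hv : v ∈ B
    · simp only [hH, Set.indicator_of_mem hv]
      rw [lintegral_indicator (measurableSet_Icc.inter measurableSet_Icc), setLIntegral_const]
      have h1 : volume (Set.Icc (dist (z v) w - r v) (dist (z v) w + r v) ∩ Set.Icc T (16 * T)) ≤
          ENNReal.ofReal (2 * min (r v) τ) := by
        rcases min_choice (r v) τ with h2 | h2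
        · rw [h2]
          refine (measure_mono Set.inter_subset_left).trans ?_
          rw [Real.volume_Icc]
          apply ENNReal.ofReal_le_ofReal
          linarith
        · rw [h2]
          refine (measure_mono Set.inter_subset_right).trans ?_
          rw [Real.volume_Icc]
          apply ENNReal.ofReal_le_ofReal
          rw [hτ]; linarith
      calc _ ≤ ENNReal.ofReal (2 * R v) * ENNReal.ofReal (2 * min (r v) τ) := by gcongr
        _ = ENNReal.ofReal (4 * (R v * min (r v) τ)) := by
            rw [← ENNReal.ofReal_mul (by have := hR v; positivity)]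
            congr 1; ring
    · simp only [hH, Set.indicator_of_notMem hv]
      simp
  have hstep1 : ENNReal.ofReal (e * (15 * T)) ≤
      ∑' v, B.indicator (fun v => ENNReal.ofReal (4 * (R v * min (r v) τ))) v := by
    calc ENNReal.ofReal (e * (15 * T)) = ∫⁻ t in Set.Icc T (16 * T), ENNReal.ofReal e := by
          rw [setLIntegral_const, Real.volume_Icc, ← ENNReal.ofReal_mul he.le]
          congr 1; ring
      _ ≤ ∫⁻ t in Set.Icc T (16 * T), ∑' v, H v t := by
          apply setLIntegral_mono' measurableSet_Icc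
          intro t ht
          refine (h t ht).trans ?_
          apply ENNReal.tsum_le_tsum
          intro v
          by_cases hv : v ∈ hset z r w c t
          · rw [Set.indicator_of_mem hv]
            obtain ⟨h1, h2⟩ := hv
            rw [abs_le] at h1
            have hvB : v ∈ B := by
              rw [hB]
              exact ⟨by linarith [ht.2], by linarith [ht.1], h2.trans ht.2⟩
            simp only [hH]
            rw [Set.indicator_of_mem hvB, Set.indicator_of_mem]
            exact ⟨⟨by linarith, by linarith⟩, ht⟩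
          · rw [Set.indicator_of_notMem hv]
            exact zero_le
      _ ≤ ∫⁻ t, ∑' v, H v t := setLIntegral_le_lintegral _ _
      _ = ∑' v, ∫⁻ t, H v t := by
          apply lintegral_tsum
          intro v
          by_cases hv : v ∈ B
          · simp only [hH, Set.indicator_of_mem hv]
            exact (measurable_const.indicator
              (measurableSet_Icc.inter measurableSet_Icc)).aemeasurable
          · simp only [hH, Set.indicator_of_notMem hv]
            exact measurable_const.aemeasurable
      _ ≤ _ := ENNReal.tsum_le_tsum hint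
  set lam : ℝ := 3844 * T / (15 * e) with hlam
  have hlam0 : 0 < lam := by positivity
  set S := ∑' v, B.indicator (fun v => ENNReal.ofReal ((R v) ^ 2)) v with hS
  have harea : ∑' v, B.indicator (fun v => ENNReal.ofReal ((min (r v) τ) ^ 2)) v ≤
      ENNReal.ofReal ((31 * T) ^ 2) := by
    have h1 := area_min B z r hr hdis (c := w) (ρ := 16 * T) (τ := τ) (by positivity) hτ0
      (fun v hv => hv.1)
    refine h1.trans (le_of_eq ?_)
    congr 1
    rw [hτ]; ring
  have hstep2 : ∑' v, B.indicator (fun v => ENNReal.ofReal (4 * (R v * min (r v) τ))) v ≤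
      ENNReal.ofReal (2 * lam) * S + ENNReal.ofReal (2 / lam) *
        ∑' v, B.indicator (fun v => ENNReal.ofReal ((min (r v) τ) ^ 2)) v := by
    rw [hS, ← ENNReal.tsum_mul_left, ← ENNReal.tsum_mul_left, ← ENNReal.tsum_add]
    apply ENNReal.tsum_le_tsum
    intro v
    by_cases hv : v ∈ B
    · simp only [Set.indicator_of_mem hv]
      rw [← ENNReal.ofReal_mul (by positivity), ← ENNReal.ofReal_mul (by positivity),
        ← ENNReal.ofReal_add (by positivity) (by positivity)]
      apply ENNReal.ofReal_le_ofReal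
      set m := min (r v) τ with hm
      have h1 : 0 ≤ (lam * R v - m) ^ 2 / lam := by positivity
      have h2 : (lam * R v - m) ^ 2 / lam = lam * R v ^ 2 + m ^ 2 / lam - 2 * (R v * m) := by
        field_simp
        ring
      have h3 : 2 * lam * R v ^ 2 + 2 / lam * m ^ 2 - 4 * (R v * m)
          = 2 * (lam * R v ^ 2 + m ^ 2 / lam - 2 * (R v * m)) := by ring
      have h4 : 0 ≤ 2 * (lam * R v ^ 2 + m ^ 2 / lam - 2 * (R v * m)) := by
        rw [← h2]; positivity
      linarith
    · simp only [Set.indicator_of_notMem hv]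
      exact zero_le
  have hstep3 : ENNReal.ofReal (2 / lam) *
        ∑' v, B.indicator (fun v => ENNReal.ofReal ((min (r v) τ) ^ 2)) v ≤
      ENNReal.ofReal (e * (15 * T) / 2) := by
    calc _ ≤ ENNReal.ofReal (2 / lam) * ENNReal.ofReal ((31 * T) ^ 2) := by gcongr
      _ = ENNReal.ofReal (e * (15 * T) / 2) := by
          rw [← ENNReal.ofReal_mul (by positivity)]
          congr 1
          rw [hlam]
          field_simp
          ring
  have hstep4 : ENNReal.ofReal (e * (15 * T) / 2) ≤ ENNReal.ofReal (2 * lam) * S := by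
    have h1 : ENNReal.ofReal (e * (15 * T) / 2) + ENNReal.ofReal (e * (15 * T) / 2) ≤
        ENNReal.ofReal (2 * lam) * S + ENNReal.ofReal (e * (15 * T) / 2) := by
      rw [← ENNReal.ofReal_add (by positivity) (by positivity), add_halves]
      exact (hstep1.trans hstep2).trans (add_le_add le_rfl hstep3)
    exact (ENNReal.add_le_add_iff_right ENNReal.ofReal_ne_top).1 h1
  have hfin : ENNReal.ofReal (225 / 15376 * e ^ 2) =
      ENNReal.ofReal (e * (15 * T) / 2) / ENNReal.ofReal (2 * lam) := by
    rw [← ENNReal.ofReal_div_of_pos (by positivity)]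
    congr 1
    rw [hlam]
    field_simp
    ring
  rw [hfin]
  apply ENNReal.div_le_of_le_mul
  rw [mul_comm S]
  exact hstep4

/-- The number of blocks is bounded by the total weight. -/
theorem blk_count {V : Type*} [Countable V] {z : V → ℂ} {r R : V → ℝ}
    (hr : ∀ v, 0 < r v) (hR : ∀ v, 0 ≤ R v)
    (hdis : ∀ u v, u ≠ v → Disjoint (Metric.ball (z u) (r u)) (Metric.ball (z v) (r v)))
    {w : ℂ} {c T0 A e W : ℝ} (hc : 0 < c) (hT0 : 0 < T0) (he : 0 < e) (hA1 : 1 ≤ A)
    (hA : 16 + 32 / c < A) (hW : 0 ≤ W)
    (hRW : ∑' v, ENNReal.ofReal ((R v) ^ 2) ≤ ENNReal.ofReal W) {N : ℕ}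
    (h : ∀ t, T0 ≤ t → t ≤ 16 * (A ^ N * T0) → ENNReal.ofReal e ≤ ∑' v,
      (hset z r w c t).indicator (fun v => ENNReal.ofReal (2 * R v)) v) :
    N * (225 / 15376 * e ^ 2) ≤ W := by
  have hA0 : 0 < A := by linarith
  set ε := 225 / 15376 * e ^ 2 with hε
  have hε0 : 0 ≤ ε := by positivity
  have hblock : ∀ k < N, ENNReal.ofReal ε ≤
      ∑' v, (blk z r w c (A ^ k * T0)).indicator (fun v => ENNReal.ofReal ((R v) ^ 2)) v := by
    intro k hk
    apply blk_bound hr hR hdis (by positivity) he
    intro t ht
    apply h t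
    · calc T0 = 1 * T0 := (one_mul _).symm
        _ ≤ A ^ k * T0 := by gcongr; exact one_le_pow₀ hA1
        _ ≤ t := ht.1
    · calc t ≤ 16 * (A ^ k * T0) := ht.2
        _ ≤ 16 * (A ^ N * T0) := by gcongr
  have hdisj : ∀ v, ∀ k < N, ∀ l < N, k < l → v ∈ blk z r w c (A ^ k * T0) →
      v ∉ blk z r w c (A ^ l * T0) := by
    intro v k hk l hl hkl h1 h2
    have h3 : A ^ (k + 1) * T0 ≤ A ^ l * T0 := by gcongr; exact hkl
    have h8 : 0 < A ^ k * T0 := by positivity
    have h9 : A ^ (k + 1) * T0 = A * (A ^ k * T0) := by ring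
    have h4 : r v ≤ 16 * (A ^ k * T0) / c := by
      rw [le_div_iff₀ hc]
      have := h1.2.2
      linarith
    have h5 := h1.1
    have h6 := h2.2.1
    have h7 : (16 + 32 / c) * (A ^ k * T0) < A * (A ^ k * T0) := by gcongr
    have h10 : (16 + 32 / c) * (A ^ k * T0) = 16 * (A ^ k * T0) + 2 * (16 * (A ^ k * T0) / c) := by
      ring
    linarith
  have hsum : ∑ k ∈ Finset.range N, ENNReal.ofReal ε ≤ ENNReal.ofReal W := by
    calc ∑ k ∈ Finset.range N, ENNReal.ofReal ε
        ≤ ∑ k ∈ Finset.range N, ∑' v, (blk z r w c (A ^ k * T0)).indicator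
            (fun v => ENNReal.ofReal ((R v) ^ 2)) v := by
          apply Finset.sum_le_sum
          intro k hk
          exact hblock k (Finset.mem_range.1 hk)
      _ = ∑' v, ∑ k ∈ Finset.range N, (blk z r w c (A ^ k * T0)).indicator
            (fun v => ENNReal.ofReal ((R v) ^ 2)) v := by
          rw [Summable.tsum_finsetSum]
          intro i _
          exact ENNReal.summable
      _ ≤ ∑' v, ENNReal.ofReal ((R v) ^ 2) := by
          apply ENNReal.tsum_le_tsum
          intro v
          by_cases hex : ∃ k < N, v ∈ blk z r w c (A ^ k * T0)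
          · obtain ⟨k, hk, hkv⟩ := hex
            rw [Finset.sum_eq_single_of_mem k (Finset.mem_range.2 hk)]
            · rw [Set.indicator_of_mem hkv]
            · intro l hl hlk
              apply Set.indicator_of_notMem
              intro hlv
              rcases lt_or_gt_of_ne hlk with h1 | h1
              · exact hdisj v l (Finset.mem_range.1 hl) k hk h1 hlv hkv
              · exact hdisj v k hk l (Finset.mem_range.1 hl) h1 hkv hlv
          · push Not at hex
            rw [Finset.sum_eq_zero]
            · exact zero_le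
            · intro k hk
              exact Set.indicator_of_notMem (hex k (Finset.mem_range.1 hk)) _
      _ ≤ ENNReal.ofReal W := hRW
  rw [Finset.sum_const, Finset.card_range, nsmul_eq_mul] at hsum
  rw [← ENNReal.ofReal_natCast, ← ENNReal.ofReal_mul (by positivity)] at hsum
  exact (ENNReal.ofReal_le_ofReal_iff hW).1 hsum

end Pool.Agent.H99.KX
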