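import Pool.Agent.H74.Koebe.FanLemma

/-! The ring lemma with the constant `16 ^ (-n)`, by growing a cluster of petals. -/

namespace Pool.Agent.H99.KX

open Pool.Agent.H74.Koebe

/-- One step of the growth: of the two petals next to a cluster one is at most four times as large
as the cluster. -/
lemma grow_step {a c u v B θ θa θc : ℝ} (hB : 0 < B) (ha : 0 < a) (hc : 0 < c) (hu : u ≤ B)
    (hv : v ≤ B) (hθ : θ ≤ B ^ 2) (h1 : θa ≤ Real.pi * (a * u)) (h2 : θc ≤ Real.pi * (v * c))
    (hs : 2 * (a * c) ≤ θa + θ + θc) : a ≤ 4 * B ∨ c ≤ 4 * B := by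
  by_contra hcon
  push Not at hcon
  obtain ⟨h3, h4⟩ := hcon
  have hpi := Real.pi_lt_d2
  have hpi0 := Real.pi_pos
  have h5 : Real.pi * (a * u) ≤ Real.pi * (a * B) := by gcongr
  have h6 : Real.pi * (v * c) ≤ Real.pi * (B * c) := by gcongr
  have h7 : Real.pi * (a * B) ≤ 3.15 * (a * B) := by gcongr
  have h8 : Real.pi * (B * c) ≤ 3.15 * (B * c) := by gcongr
  nlinarith [mul_pos (sub_pos.2 h3) (sub_pos.2 h4), mul_pos hB (sub_pos.2 h3),
    mul_pos hB (sub_pos.2 h4), mul_pos hB hB]

/-- The growth of a cluster inside a window `[a, b]` of indices. -/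
theorem grow {σ θ : ℕ → ℝ} {a b c : ℕ} (K : ℕ) (hac : a ≤ c) (hcb : c ≤ b)
    (hσ : ∀ i, a ≤ i → i ≤ b → 0 < σ i)
    (hang : ∀ i, a ≤ i → i < b → θ (i + 1) - θ i ≤ Real.pi * (σ i * σ (i + 1)))
    (hsep : ∀ i j, a ≤ i → i < j → j ≤ b → j ≤ i + (K + 1) → 2 * (σ i * σ j) ≤ θ j - θ i) :
    ∀ k ≤ K, ∃ l u : ℕ, a ≤ l ∧ l ≤ c ∧ c ≤ u ∧ u ≤ b ∧ u ≤ l + k ∧
      (∀ j, l ≤ j → j ≤ u → σ j ≤ 4 ^ k * σ c) ∧ θ u - θ l ≤ (4 ^ k * σ c) ^ 2 ∧
      (u = l + k ∨ l = a ∨ u = b) := by
  intro k
  induction k with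
  | zero =>
    intro _
    refine ⟨c, c, hac, le_rfl, le_rfl, hcb, by omega, ?_, ?_, Or.inl (by omega)⟩
    · intro j h1 h2
      have : j = c := by omega
      rw [this, pow_zero, one_mul]
    · rw [sub_self]; positivity
  | succ k ih =>
    intro hk
    obtain ⟨l, u, h1, h2, h3, h4, h5, h6, h7, h8⟩ := ih (by omega)
    set B : ℝ := 4 ^ k * σ c with hB
    have hσc := hσ c hac hcb
    have hB0 : 0 < B := by positivity
    have hB4 : (4 : ℝ) ^ (k + 1) * σ c = 4 * B := by rw [hB]; ring
    rw [hB4]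
    have hBle : B ≤ 4 * B := by linarith
    by_cases hl : l = a
    · refine ⟨l, u, h1, h2, h3, h4, by omega, fun j hj hj' => (h6 j hj hj').trans hBle, ?_,
        Or.inr (Or.inl hl)⟩
      refine h7.trans ?_
      gcongr
    by_cases hu : u = b
    · refine ⟨l, u, h1, h2, h3, h4, by omega, fun j hj hj' => (h6 j hj hj').trans hBle, ?_,
        Or.inr (Or.inr hu)⟩
      refine h7.trans ?_
      gcongr
    have h9 : u = l + k := by
      rcases h8 with h | h | h
      · exact h
      · exact absurd h hl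
      · exact absurd h hu
    have hA := hang (l - 1) (by omega) (by omega)
    rw [show l - 1 + 1 = l by omega] at hA
    have hC := hang u (by omega) (by omega)
    have hS := hsep (l - 1) (u + 1) (by omega) (by omega) (by omega) (by omega)
    have hσa := hσ (l - 1) (by omega) (by omega)
    have hσu := hσ (u + 1) (by omega) (by omega)
    have hul := h6 l le_rfl (by omega)
    have huu := h6 u (by omega) le_rfl
    have hpi := Real.pi_lt_d2
    have hpi0 := Real.pi_pos
    have hdich := grow_step hB0 hσa hσu hul huu h7 hA hC (by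
      have : θ l - θ (l - 1) + (θ u - θ l) + (θ (u + 1) - θ u) = θ (u + 1) - θ (l - 1) := by ring
      linarith)
    rcases hdich with h10 | h10
    · refine ⟨l - 1, u, by omega, by omega, h3, h4, by omega, ?_, ?_, Or.inl (by omega)⟩
      · intro j hj hj'
        rcases Nat.lt_or_ge j l with h11 | h11
        · have : j = l - 1 := by omega
          rw [this]; exact h10
        · exact (h6 j h11 hj').trans hBle
      · have h12 : Real.pi * (σ (l - 1) * σ l) ≤ 3.15 * (4 * B * B) := by
          have := hσ l (by omega) (by omega)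
          gcongr
        nlinarith
    · refine ⟨l, u + 1, by omega, by omega, by omega, by omega, by omega, ?_, ?_, Or.inl (by omega)⟩
      · intro j hj hj'
        rcases Nat.lt_or_ge u j with h11 | h11
        · have : j = u + 1 := by omega
          rw [this]; exact h10
        · exact (h6 j hj h11).trans hBle
      · have h12 : Real.pi * (σ u * σ (u + 1)) ≤ 3.15 * (B * (4 * B)) := by
          have := hσ u (by omega) (by omega)
          gcongr
        nlinarith

variable {n m : ℕ} {z : ℂ} {r : ℝ} {p : ℕ → ℂ} {ρ : ℕ → ℝ}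

lemma flower_mod (h : Flower n z r p ρ) (i : ℕ) : p i = p (i % n) ∧ ρ i = ρ (i % n) := by
  have h1 : ∀ q s : ℕ, p (s + n * q) = p s ∧ ρ (s + n * q) = ρ s := by
    intro q s
    induction q with
    | zero => simp
    | succ q ih =>
      rw [show s + n * (q + 1) = (s + n * q) + n by ring, h.per, h.perρ]
      exact ih
  have h2 := h1 (i / n) (i % n)
  rw [Nat.mod_add_div] at h2
  exact h2

lemma flower_dis (h : Flower n z r p ρ) {i j : ℕ} (hij : i < j) (hj : j < i + n) :
    ρ i + ρ j ≤ dist (p i) (p j) := by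
  have hn3 := h.three
  rw [(flower_mod h i).1, (flower_mod h i).2, (flower_mod h j).1, (flower_mod h j).2]
  apply h.disj _ (Nat.mod_lt _ (by omega)) _ (Nat.mod_lt _ (by omega))
  intro hmod
  have h3 : (j - i) % n = 0 := by
    have h4 : i ≡ j [MOD n] := hmod
    exact (Nat.modEq_iff_dvd' hij.le).1 h4 |> Nat.eq_zero_of_dvd_of_lt |> fun f => by
      have := f (by omega)
      omega
  have h5 : (j - i) % n = j - i := Nat.mod_eq_of_lt (by omega)
  omega

/-- The ring lemma with an explicit constant. -/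
theorem ring16 (h : Flower n z r p ρ) (i : ℕ) : (1 / 16) ^ n * r ≤ ρ i := by
  have hn3 := h.three
  have hpi := Real.pi_pos
  have hpi2 := Real.pi_gt_three
  have hpi4 := Real.pi_lt_d2
  -- the window around `c = i + n`
  have hA := h.arc (i + 2 * n)
  obtain ⟨l, u, h1, h2, h3, h4, h5, h6, h7, h8⟩ := grow (σ := sg r ρ) (θ := th z p) (a := i)
    (b := i + 2 * n) (c := i + n) (n - 2) (by omega) (by omega)
    (fun j _ hj => hA.sg_pos (by omega))
    (fun j _ hj => by
      rw [th_succ]
      have := hA.ang_le (show j < i + 2 * n by omega)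
      linarith)
    (fun j k _ hjk hk hk' => hA.sep hjk.le (by omega) (flower_dis h hjk (by omega)))
    (n - 2) le_rfl
  have hu : u = l + (n - 2) := by
    rcases h8 with h | h | h
    · exact h
    · omega
    · omega
  set ε := sg r ρ (i + n) with hε
  have hε0 : 0 < ε := hA.sg_pos (by omega)
  set B : ℝ := 4 ^ (n - 2) * ε with hB
  have hB0 : 0 < B := by positivity
  -- the total angle
  have htot : th z p (l + n) - th z p l = 2 * Real.pi := by
    have hsum := h.angle_sum
    have hper : ∀ k, th z p (k + n) - th z p k = th z p n := by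
      intro k
      induction k with
      | zero => rw [th_zero, sub_zero, zero_add]
      | succ k ih =>
        have e1 : k + 1 + n = (k + n) + 1 := by ring
        have e2 : ang z p (k + n) = ang z p k := by
          unfold ang
          rw [show k + n + 1 = (k + 1) + n by ring, h.per, h.per]
        rw [e1, th_succ, th_succ, e2]
        linarith
    rw [hper, hsum]
  have e3 : l + n = (u + 1) + 1 := by omega
  rw [e3, th_succ, th_succ] at htot
  have hu1 := h6 u (by omega) le_rfl
  have hl1 := h6 l le_rfl (by omega)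
  have hA' := h.arc (l + n)
  have hang1 := hA'.ang_le (show u < l + n by omega)
  have hang2 := hA'.ang_le (show u + 1 < l + n by omega)
  have hx1 := hA'.sg_le_one (show u + 1 ≤ l + n by omega)
  have hx0 := hA'.sg_pos (show u + 1 ≤ l + n by omega)
  have hu0 := hA'.sg_pos (show u ≤ l + n by omega)
  have hl0 := hA'.sg_pos (show l ≤ l + n by omega)
  have e4 : sg r ρ (u + 1 + 1) = sg r ρ l := by
    rw [← e3]; unfold sg; rw [h.perρ]
  rw [e4] at hang2
  have k1 : Real.pi * (sg r ρ u * sg r ρ (u + 1)) ≤ Real.pi * B := by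
    have : sg r ρ u * sg r ρ (u + 1) ≤ B * 1 := by gcongr
    rw [mul_one] at this
    gcongr
  have k2 : Real.pi * (sg r ρ (u + 1) * sg r ρ l) ≤ Real.pi * B := by
    have : sg r ρ (u + 1) * sg r ρ l ≤ 1 * B := by gcongr
    rw [one_mul] at this
    gcongr
  have k3 : 2 * Real.pi ≤ B ^ 2 + 2 * Real.pi * B := by linarith
  have k4 : 1 / 4 ≤ B := by
    by_contra hcon
    push Not at hcon
    have : B ^ 2 ≤ 1 := by nlinarith
    nlinarith
  have k5 : (1 / 4 : ℝ) ^ n ≤ ε := by
    have e5 : (4 : ℝ) ^ n = 4 ^ (n - 2) * 16 := by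
      conv_lhs => rw [show n = (n - 2) + 2 by omega, pow_add]
      norm_num
    have e6 : (0 : ℝ) < 4 ^ (n - 2) := by positivity
    rw [one_div, inv_pow, inv_le_iff_one_le_mul₀ (by positivity), e5]
    have : ε * (4 ^ (n - 2) * 16) = B * 16 := by rw [hB]; ring
    rw [this]
    linarith
  have k6 : ((1 / 4 : ℝ) ^ n) ^ 2 ≤ ρ (i + n) / (r + ρ (i + n)) := by
    rw [← hA.sg_sq (show i + n ≤ i + 2 * n by omega)]
    gcongr
  have k7 := rho_ge h.rpos (h.ρpos _) k6
  rw [h.perρ, ← pow_mul, mul_comm n 2, pow_mul] at k7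
  norm_num at k7 ⊢
  exact k7

/-- The horocyclic ring lemma with an explicit constant. -/
theorem fan16 (h : Fan m z r p ρ) (hr4 : 1 / 4 ≤ r) (hr2 : r ≤ 1 / 2) {j : ℕ} (hj : j ≤ m)
    (hjn : ‖p j‖ + ρ j < 1 / 2) : (1 / 16) ^ (m + 2) ≤ ρ j := by
  have hA := h.arc
  have hpi := Real.pi_pos
  have hpi2 := Real.pi_gt_three
  have hr0 := h.rpos
  have hr1 : r < 1 := by linarith
  obtain ⟨φ, hφ1, hφ2, hφ3⟩ := h.exists_angles hr1
  have hρj := h.ρpos j hj
  -- the direction of `p j`
  have hcosj : Real.cos (φ j) < -(1 / 2) := by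
    have h1 := hφ3 j hj
    have h2 : ‖p j‖ ^ 2 < (1 / 2 - ρ j) ^ 2 := by
      have := norm_nonneg (p j)
      have : ‖p j‖ < 1 / 2 - ρ j := by linarith
      gcongr
    rw [h1] at h2
    have h3 : 0 < (1 - r) * (r + ρ j) := by
      have : 0 < 1 - r := by linarith
      positivity
    have h4 : 0 < (1 / 2 - r) ^ 2 + r * ρ j := by positivity
    by_contra hcon
    push Not at hcon
    nlinarith
  obtain ⟨hj1, hj2⟩ := angle_of_cos (hφ1 j hj).1 (hφ1 j hj).2 hcosj
  -- a horocyclic end with a large angle is large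
  have hend : ∀ i ≤ m, ‖p i‖ + ρ i = 1 → Real.cos (φ i) ≤ 1 / 2 → 1 / 3 ≤ sg r ρ i := by
    intro i hi hn hcos
    have h1 := horo_eq hr0 hr1 (h.ρpos i hi) hn (hφ3 i hi)
    have h2 : 1 / 8 ≤ ρ i / (r + ρ i) := by
      rw [h1]
      have h3 : (1 : ℝ) / 4 ≤ (1 - Real.cos (φ i)) / 2 := by linarith
      nlinarith
    rw [← hA.sg_sq hi] at h2
    have h4 := hA.sg_pos hi
    by_contra hcon
    push Not at hcon
    nlinarith
  obtain ⟨l, u, h1, h2, h3, h4, h5, h6, h7, h8⟩ := grow (σ := sg r ρ) (θ := th z p) (a := 0)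
    (b := m) (c := j) m (by omega) (by omega)
    (fun j _ hj => hA.sg_pos (by omega))
    (fun j _ hj => by
      rw [th_succ]
      have := hA.ang_le (show j < m by omega)
      linarith)
    (fun j k _ hjk hk hk' => hA.sep hjk.le (by omega)
      (h.disj j (by omega) k (by omega) (by omega)))
    m le_rfl
  set ε := sg r ρ j with hε
  have hε0 : 0 < ε := hA.sg_pos (by omega)
  set B : ℝ := 4 ^ m * ε with hB
  have hB0 : 0 < B := by positivity
  have hlu : l = 0 ∨ u = m := by omega
  have hB3 : 1 / 3 ≤ B := by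
    rcases hlu with h9 | h9
    · subst h9
      by_cases h0 : Real.pi / 3 ≤ φ 0
      · have k1 := hend 0 (Nat.zero_le _) h.horo0 (cos_le_half h0 (by
          have k2 := hA.th_mono (Nat.zero_le j) hj
          rw [th_zero] at k2
          have k3 := hφ2 j
          linarith))
        exact k1.trans (h6 0 le_rfl (Nat.zero_le _))
      · push Not at h0
        have k1 : Real.pi / 3 < th z p j := by have := hφ2 j; linarith
        have k2 := hA.th_mono h3 (by omega)
        rw [th_zero, sub_zero] at h7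
        by_contra hcon
        push Not at hcon
        nlinarith
    · subst h9
      by_cases h0 : φ u ≤ 2 * Real.pi - Real.pi / 3
      · have k1 := hend u le_rfl h.horom (cos_le_half (by
          have k2 := hA.th_mono hj le_rfl
          have k3 := hφ2 j
          have k4 := hφ2 u
          linarith) h0)
        exact k1.trans (h6 u (by omega) le_rfl)
      · push Not at h0
        have k1 : Real.pi / 3 < th z p u - th z p j := by
          have h2 := hφ2 j
          have h3 := hφ2 u
          linarith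
        have k2 := hA.th_mono h2 (by omega)
        by_contra hcon
        push Not at hcon
        nlinarith
  have k5 : (1 / 4 : ℝ) ^ m * (1 / 3) ≤ ε := by
    rw [one_div, inv_pow, inv_mul_le_iff₀ (by positivity)]
    exact hB3
  have k6 : ((1 / 4 : ℝ) ^ m * (1 / 3)) ^ 2 ≤ ρ j / (r + ρ j) := by
    rw [← hA.sg_sq hj]
    gcongr
  have k7 := rho_ge h.rpos hρj k6
  have k8 : ((1 / 4 : ℝ) ^ m * (1 / 3)) ^ 2 * (1 / 4) ≤ ((1 / 4 : ℝ) ^ m * (1 / 3)) ^ 2 * r := by
    gcongr
  have k9 : (1 / 16 : ℝ) ^ (m + 2) ≤ ((1 / 4 : ℝ) ^ m * (1 / 3)) ^ 2 * (1 / 4) := by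
    rw [mul_pow, ← pow_mul, mul_comm m 2, pow_mul, pow_add]
    norm_num
    have : (0 : ℝ) < (1 / 16) ^ m := by positivity
    nlinarith
  linarith

end Pool.Agent.H99.KX
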