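import Pool.Agent.H99.KX.Hit
import Pool.Agent.H99.KX.Cnt
import Pool.Agent.H99.KX.Grow
import Pool.Agent.H74.Koebe.Main
import Pool.Agent.H74.Koebe.Bdry

/-! The circle bound with truncated radii of the maximal packing. -/

namespace Pool.Agent.H99.KX

open Pool.Agent.H74.Koebe

universe u

variable {V : Type u} {K : OComplex V} {P Q : Circles V} {κ : ℝ}

open OComplex

/-- The radius of `v` in the maximal packing, truncated to the annulus from `δ` to `16 δ`. -/
noncomputable def trad (Q : Circles V) (δ : ℝ) (v : V) : ℝ :=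
  open Classical in if ‖Q.z v‖ - Q.r v ≤ 16 * δ then min (Q.r v) (15 / 2 * δ) else 0

lemma trad_nonneg (hQ : Good K Q) {δ : ℝ} (hδ : 0 ≤ δ) (v : V) : 0 ≤ trad Q δ v := by
  unfold trad
  split_ifs
  · exact le_min (hQ.pos v).le (by positivity)
  · exact le_rfl

open ENNReal in
lemma trad_sum [Countable V] (hQ : Good K Q) {δ : ℝ} (hδ : 0 < δ) :
    ∑' v, ENNReal.ofReal ((trad Q δ v) ^ 2) ≤ ENNReal.ofReal ((31 * δ) ^ 2) := by
  have h1 := area_min {v | ‖Q.z v‖ - Q.r v ≤ 16 * δ} Q.z Q.r hQ.pos hQ.univ (c := 0)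
    (ρ := 16 * δ) (τ := 15 / 2 * δ) (by positivity) (by positivity) (by
      intro v hv
      rw [dist_zero_right]
      have hv' : ‖Q.z v‖ - Q.r v ≤ 16 * δ := hv
      linarith)
  have h2 : 16 * δ + 2 * (15 / 2 * δ) = 31 * δ := by ring
  rw [h2] at h1
  refine le_trans (le_of_eq ?_) h1
  congr 1
  ext v
  unfold trad
  by_cases hv : ‖Q.z v‖ - Q.r v ≤ 16 * δ
  · rw [if_pos hv, Set.indicator_of_mem (by exact hv)]
  · rw [if_neg hv, Set.indicator_of_notMem (by exact hv)]
    simp

/-- The radii along the chain of hit discs cover the interval travelled. -/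
lemma cover_interval_hit {w : ℂ} {t : ℝ} (hQ : Good K Q) {x0 x : V}
    (h : Relation.ReflTransGen (hstep K P w t) x0 x) :
    ∀ τ ∈ Set.Icc (‖Q.z x0‖ - Q.r x0) (far Q x),
      ∃ v, Relation.ReflTransGen (hstep K P w t) x0 v ∧ τ ∈ Set.Icc (‖Q.z v‖ - Q.r v) (far Q v) := by
  induction h with
  | refl => exact fun τ hτ => ⟨x0, Relation.ReflTransGen.refl, hτ⟩
  | @tail a b ha hab ih =>
    intro τ hτ
    by_cases hb : ‖Q.z b‖ - Q.r b ≤ τ
    · exact ⟨b, ha.tail hab, hb, hτ.2⟩
    · push Not at hb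
      have := lower_le_far hQ (Or.inr hab.1)
      exact ih τ ⟨hτ.1, by linarith⟩

lemma hit_rad (hS : Star κ K P) (hG : Good K P) {w : ℂ} (hw : w ∉ carr K P) {t : ℝ} {v : V}
    (hv : K.Interior v) (h : hit P w t v) : eta κ * P.r v ≤ t := by
  by_contra hcon
  push Not at hcon
  unfold hit at h
  rw [abs_le] at h
  obtain ⟨a, b, hf, hm⟩ := hS.cover' (hG.pos v) hv (q := w) (by
    rw [dist_comm]; linarith)
  exact hw (mem_carr hf hm)

open MeasureTheory ENNReal in
/-- The lower bound for the truncated radii of the maximal packing along a circle. -/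
theorem circle_bound_hit [Countable V] (hP : Good K P) (hQ : Good K Q) (hS : Star κ K P)
    (hsc : K.SimplyConnected) {w : ℂ} (hw : w ∉ carr K P) {δ : ℝ} (hδ : 0 < δ) {v0 vf : V}
    (hv0 : K.Interior v0) (h0 : far Q v0 < δ)
    (hI : ∀ u, far Q u < 16 * δ → K.Interior u)
    (hH : ∀ u x, far Q u < 16 * δ → K.adj u x → K.Interior x)
    (hfin : {v | far Q v < 16 * δ}.Finite)
    (hvf : Flw K Q δ v0 vf) {t : ℝ} (ht : 0 < t) (ht0 : dist (P.z v0) w < t)
    (ht1 : t ≤ dist (P.z vf) w) :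
    ENNReal.ofReal (15 * δ) ≤ ∑' v,
      (hset P.z P.r w (eta κ) t).indicator (fun v => ENNReal.ofReal (2 * trad Q δ v)) v := by
  set N := hset P.z P.r w (eta κ) t with hN
  have hH' : ∀ u x, far Q u < δ → K.adj u x → K.Interior x := fun u x hu hux =>
    hH u x (by linarith) hux
  obtain ⟨x1, y1, hx1, hy1, hxy, q0, hq0, hq0t⟩ := exists_edge ht0 hvf ht1
  obtain ⟨x0, hx0, hx0h⟩ : ∃ x0, Flw K Q δ v0 x0 ∧ hit P w t x0 := by
    rcases seg_disc hP hxy hq0 with h | h
    · exact ⟨x1, hx1, hit_of_mem hq0t h⟩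
    · exact ⟨y1, hy1, hit_of_mem hq0t h⟩
  have hx0I := hx0.interior hv0 h0 hH'
  obtain ⟨x, hx, hTx⟩ := crossing_hit hP hS hsc hw ht (T := fun v => 16 * δ ≤ far Q v) (x0 := x0)
    (hfin.subset (by
      intro v hv
      exact not_le.1 hv))
    (by
      intro v hv
      exact ⟨hI v (not_le.1 hv), fun x hx => hH v x (not_le.1 hv) hx⟩) hx0h
  have hreach : ∀ v, Relation.ReflTransGen (hstep K P w t) x0 v → v ∈ N := by
    intro v hv
    have h1 : hit P w t v ∧ K.Interior v := by
      induction hv with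
      | refl => exact ⟨hx0h, hx0I⟩
      | tail _ hab _ => exact ⟨hab.2.2, hab.2.1⟩
    exact ⟨h1.1, hit_rad hS hP hw h1.2 h1.1⟩
  have hcov := cover_interval_hit hQ hx
  have hlow := hx0.lower hQ h0
  calc ENNReal.ofReal (15 * δ) = volume (Set.Icc δ (16 * δ)) := by
        rw [Real.volume_Icc]; congr 1; ring
    _ ≤ volume (⋃ v, {τ : ℝ | v ∈ N ∧ τ ∈ Set.Icc (‖Q.z v‖ - Q.r v) (far Q v) ∩
          Set.Icc δ (16 * δ)}) := by
        apply measure_mono
        intro τ hτ
        obtain ⟨v, hv, hτv⟩ := hcov τ ⟨by linarith [hτ.1], by linarith [hτ.2]⟩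
        exact Set.mem_iUnion.2 ⟨v, hreach v hv, hτv, hτ⟩
    _ ≤ ∑' v, volume {τ : ℝ | v ∈ N ∧ τ ∈ Set.Icc (‖Q.z v‖ - Q.r v) (far Q v) ∩
          Set.Icc δ (16 * δ)} := measure_iUnion_le _
    _ ≤ _ := by
        apply ENNReal.tsum_le_tsum
        intro v
        by_cases hv : v ∈ N
        · rw [Set.indicator_of_mem hv]
          have h1 : {τ : ℝ | v ∈ N ∧ τ ∈ Set.Icc (‖Q.z v‖ - Q.r v) (far Q v) ∩
              Set.Icc δ (16 * δ)} =
              Set.Icc (‖Q.z v‖ - Q.r v) (far Q v) ∩ Set.Icc δ (16 * δ) := by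
            ext τ
            exact ⟨fun h => h.2, fun h => ⟨hv, h⟩⟩
          rw [h1]
          unfold trad
          by_cases hlo : ‖Q.z v‖ - Q.r v ≤ 16 * δ
          · rw [if_pos hlo]
            rcases min_choice (Q.r v) (15 / 2 * δ) with h2 | h2
            · rw [h2]
              refine (measure_mono Set.inter_subset_left).trans ?_
              rw [Real.volume_Icc]
              apply ENNReal.ofReal_le_ofReal
              unfold far
              linarith
            · rw [h2]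
              refine (measure_mono Set.inter_subset_right).trans ?_
              rw [Real.volume_Icc]
              apply ENNReal.ofReal_le_ofReal
              linarith
          · have h3 : Set.Icc (‖Q.z v‖ - Q.r v) (far Q v) ∩ Set.Icc δ (16 * δ) = ∅ := by
              ext τ
              constructor
              · rintro ⟨h3, h4⟩
                exact absurd (h3.1.trans h4.2) hlo
              · intro h; exact absurd h (by simp)
            rw [h3, measure_empty]
            exact zero_le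
        · rw [Set.indicator_of_notMem hv]
          have : {τ : ℝ | v ∈ N ∧ τ ∈ Set.Icc (‖Q.z v‖ - Q.r v) (far Q v) ∩
              Set.Icc δ (16 * δ)} = ∅ := by
            ext τ
            exact ⟨fun h => absurd h.1 hv, fun h => absurd h (by simp)⟩
          rw [this, measure_empty]

/-- The ring lemma data of a univalent packing, with the explicit constant. -/
theorem star16 {d : ℕ} (hd : K.DegLE d) (hG : Good K P) : Star ((1 / 16) ^ d) K P := by
  have h0 : (0 : ℝ) < (1 / 16) ^ d := by positivity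
  have h1 : ((1 : ℝ) / 16) ^ d ≤ 1 := pow_le_one₀ (by norm_num) (by norm_num)
  have hring : ∀ {v : V} {n : ℕ} {w : ℕ → V}, Cyc K v n w → ∀ i,
      (1 / 16) ^ d * P.r v ≤ P.r (w i) := by
    intro v n w hw i
    have h2 := ring16 (hw.flower hG) i
    have h3 : ((1 : ℝ) / 16) ^ d ≤ (1 / 16) ^ n :=
      pow_le_pow_of_le_one (by norm_num) (by norm_num) (hw.le hd)
    have h4 := hG.pos v
    have h5 : ((1 : ℝ) / 16) ^ d * P.r v ≤ (1 / 16) ^ n * P.r v := by gcongr
    exact h5.trans h2
  refine ⟨h0, h1, ?_, ?_⟩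
  · intro v hv x hx
    obtain ⟨n, w, hw⟩ := cyc_of_interior hv
    obtain ⟨i, -, rfl⟩ := hw.nbr x hx
    exact hring hw i
  · intro v hv q hq
    obtain ⟨n, w, hw⟩ := cyc_of_interior hv
    obtain ⟨i, -, hi⟩ := (hw.flower hG).star_mem h0 (hring hw) hq
    exact ⟨w i, w (i + 1), hw.face i, hi⟩

/-- Vertices next to the boundary are large in the maximal packing, with the explicit constant. -/
theorem near16 {d : ℕ} (hG : Good K Q) (hd : K.DegLE d)
    (hsub : ∀ v, Metric.ball (Q.z v) (Q.r v) ⊆ Metric.ball 0 1)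
    (hb : ∀ x, ¬ K.Interior x → ‖Q.z x‖ + Q.r x = 1) {v0 : V} (hv0 : K.Interior v0)
    (hz0 : Q.z v0 = 0) {x b : V} (hx : far Q x < 1 / 2) (hxb : K.adj x b)
    (hbI : ¬ K.Interior b) : (1 / 16) ^ (d + 2) ≤ Q.r x := by
  obtain ⟨m, w, hw⟩ := pth_of_boundary ((hG.link b).resolve_left hbI)
  have hbv0 : b ≠ v0 := fun h => hbI (h ▸ hv0)
  have hb1 := hb b hbI
  have hr0 := hG.pos v0
  have h1 : Q.r b ≤ 1 / 2 := by
    have h2 := hG.dis hbv0
    rw [hz0, dist_zero_right] at h2
    linarith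
  have h2 : 1 / 4 ≤ Q.r b := by
    have h3 := hG.tan hxb
    have h4 : ‖Q.z b‖ ≤ ‖Q.z x‖ + dist (Q.z x) (Q.z b) := by
      rw [dist_eq_norm]
      have := norm_sub_norm_le (Q.z b) (Q.z x)
      rw [norm_sub_rev] at this
      linarith
    unfold far at hx
    linarith
  obtain ⟨i, hi, rfl⟩ := hw.nbr x (adj_symm hxb)
  have h3 := fan16 (hw.fan hG hsub hb hbI) h2 h1 hi hx
  refine le_trans ?_ h3
  exact pow_le_pow_of_le_one (by norm_num) (by norm_num) (by have := hw.le hd; omega)

end Pool.Agent.H99.KX
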