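import Pool.Agent.H99.KX.Circ
import Pool.Agent.H74.Koebe.Final

/-! The discrete Koebe theorem with an explicit constant. -/

namespace Pool.Agent.H99.KX

open Pool.Agent.H74.Koebe

universe u

variable {V : Type u} {K : OComplex V} {P Q : Circles V}

open OComplex

lemma eta_ge {κ : ℝ} (h0 : 0 < κ) (h1 : κ ≤ 1) : 7 / 10 * κ ≤ eta κ := by
  unfold eta
  have h2 : 1 + 7 / 10 * κ ≤ Real.sqrt (1 + 2 * κ) := by
    apply Real.le_sqrt_of_sq_le
    nlinarith
  linarith

/-- The discrete Koebe theorem with the constant `2 ^ (-2000 d)`. -/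
theorem koebe_explicit {d : ℕ} (hK : K.IsDisc) (hd : K.DegLE d) (hQ : IsMaximal K Q) {v0 : V}
    (hv0 : K.Interior v0) (hQz : Q.z v0 = 0) (hPp : IsPacking K P) (hPu : Univalent P)
    (hPz : P.z v0 = 0) (hPr : P.r v0 = Q.r v0) :
    Metric.ball 0 ((1 / 2) ^ (2000 * d)) ⊆ carr K P := by
  -- the constants
  obtain ⟨κ, hκ⟩ : ∃ κ : ℝ, κ = (1 / 16) ^ d := ⟨_, rfl⟩
  obtain ⟨δ, hδ⟩ : ∃ δ : ℝ, δ = (1 / 2) ^ (4 * d + 12) := ⟨_, rfl⟩
  obtain ⟨A, hA⟩ : ∃ A : ℝ, A = 2 ^ (4 * d + 6) := ⟨_, rfl⟩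
  obtain ⟨s, hs⟩ : ∃ s : ℝ, s = (1 / 2) ^ (1172 * d + 1770) := ⟨_, rfl⟩
  have hκ0 : 0 < κ := by rw [hκ]; positivity
  have hκ1 : κ ≤ 1 := by rw [hκ]; exact pow_le_one₀ (by norm_num) (by norm_num)
  have hδ0 : 0 < δ := by rw [hδ]; positivity
  have hA1 : 1 ≤ A := by rw [hA]; exact one_le_pow₀ (by norm_num)
  have hA0 : 0 < A := by linarith
  have hs0 : 0 < s := by rw [hs]; positivity
  have hκA : A * κ = 64 := by
    have h1 : (1 / 16 : ℝ) ^ d = (1 / 2) ^ (4 * d) := by
      rw [pow_mul]; norm_num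
    rw [hA, hκ, h1, pow_add, mul_right_comm, ← mul_pow]
    norm_num
  have hδ16 : 16 * δ = (1 / 16) ^ (d + 2) := by
    have h1 : (1 / 16 : ℝ) ^ (d + 2) = (1 / 2) ^ (4 * (d + 2)) := by
      rw [pow_mul]; norm_num
    rw [hδ, h1, show 4 * d + 12 = 4 * (d + 2) + 4 by ring, pow_add]
    ring
  have hδ2 : 16 * δ ≤ 1 / 2 := by
    rw [hδ16, pow_add]
    have : (1 / 16 : ℝ) ^ d ≤ 1 := pow_le_one₀ (by norm_num) (by norm_num)
    nlinarith
  have hsA : 64 * (A ^ 292 * s) = δ := by
    have h1 : 64 * A ^ 292 = (2 : ℝ) ^ (1168 * d + 1758) := by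
      rw [hA, ← pow_mul, show (64 : ℝ) = 2 ^ 6 by norm_num, ← pow_add]
      congr 1
      ring
    have h2 : s = (1 / 2 : ℝ) ^ (1168 * d + 1758) * (1 / 2) ^ (4 * d + 12) := by
      rw [hs, ← pow_add]
      congr 1
      ring
    rw [← mul_assoc, h1, h2, ← mul_assoc, ← mul_pow, hδ]
    norm_num
  have hAN : 1 ≤ A ^ 292 := one_le_pow₀ hA1
  have hsδ : 64 * s ≤ δ := by
    rw [← hsA]
    nlinarith
  obtain ⟨n, w0, hw0⟩ := cyc_of_interior hv0
  have hd3 : 3 ≤ d := hw0.three.trans (hw0.le hd)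
  have hss : ((1 : ℝ) / 2) ^ (2000 * d) ≤ s := by
    rw [hs]
    exact pow_le_pow_of_le_one (by norm_num) (by norm_num) (by omega)
  intro w hw
  by_contra hcarr
  obtain ⟨hlink, hconn, hsc, hcase⟩ := hK
  obtain ⟨hQp, hQu, hQsub, hQcase⟩ := hQ
  have hP : Good K P := ⟨hlink, hconn, hPp, hPu⟩
  have hQG : Good K Q := ⟨hlink, hconn, hQp, hQu⟩
  have hSP : Star κ K P := by rw [hκ]; exact star16 hd hP
  have hSQ : Star κ K Q := by rw [hκ]; exact star16 hd hQG
  rw [Metric.mem_ball] at hw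
  replace hw : dist w 0 < s := lt_of_lt_of_le hw hss
  have hfar0 : far Q v0 = Q.r v0 := by unfold far; rw [hQz, norm_zero, zero_add]
  -- the disc of `v0` is small
  have h0 : far Q v0 < δ := by
    by_contra hcon
    push Not at hcon
    rw [hfar0, ← hPr] at hcon
    have h1 := hSP.rad_le hP hcarr hv0
    rw [hPz, dist_comm] at h1
    linarith
  -- non interior vertices are horocycles
  have hhoro : ∀ x, ¬ K.Interior x → ‖Q.z x‖ + Q.r x = 1 := by
    intro x hx
    rcases hcase with ⟨hF, -⟩ | ⟨-, hI⟩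
    · rcases hQcase with ⟨-, h⟩ | ⟨hInf, -⟩
      · exact h x ((hlink x).resolve_left hx)
      · exact absurd hInf (not_infinite_iff_finite.2 hF)
    · exact absurd (hI x) hx
  have hI : ∀ u, far Q u < 16 * δ → K.Interior u := by
    intro u hu
    by_contra hcon
    have h1 := hhoro u hcon
    unfold far at hu
    linarith
  have hH : ∀ u x, far Q u < 16 * δ → K.adj u x → K.Interior x := by
    intro u x hu hux
    by_contra hcon
    have h1 := near16 hQG hd hQsub hhoro hv0 hQz (lt_of_lt_of_le hu hδ2) hux hcon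
    rw [← hδ16] at h1
    unfold far at hu
    have := norm_nonneg (Q.z u)
    linarith
  have hH' : ∀ u x, far Q u < δ → K.adj u x → K.Interior x := fun u x hu hux =>
    hH u x (by linarith) hux
  have hfin2 : {v | far Q v < 1 / 2}.Finite := by
    rcases hcase with ⟨hF, -⟩ | ⟨hInf, hI⟩
    · exact Set.toFinite _
    · rcases hQcase with ⟨hF, -⟩ | ⟨-, hc2⟩
      · exact Set.toFinite _
      · apply (finite_half hQG hSQ hd hI hc2).subset
        intro v hv
        have hv' : far Q v < 1 / 2 := hv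
        unfold far at hv'
        have := hQG.pos v
        have hgoal : Q.z v ∈ Metric.closedBall (0 : ℂ) (1 / 2) := by
          rw [Metric.mem_closedBall, dist_zero_right]; linarith
        exact hgoal
  have hfin : {v | far Q v < 16 * δ}.Finite := hfin2.subset fun v hv => lt_of_lt_of_le hv hδ2
  obtain ⟨vf, hvf, hvfδ⟩ := schwarz hP hQG hv0 hPz hQz hPr h0 hH'
    (flw_finite hd h0 (by linarith) hfin2)
  have hvf0 : vf ≠ v0 := by
    rintro rfl
    rw [hPz, norm_zero, zero_add, hPr, ← hfar0] at hvfδ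
    linarith
  have hvf2 : δ / 2 ≤ ‖P.z vf‖ := by
    have h1 := hP.dis hvf0
    rw [hPz, dist_zero_right] at h1
    have := hP.pos v0
    linarith
  have hcount : Countable V := by
    apply Pairwise.countable_of_isOpen_disjoint (s := fun v => Metric.ball (P.z v) (P.r v))
    · intro u v huv
      exact hPu u v huv
    · intro v
      exact Metric.isOpen_ball
    · intro v
      exact ⟨P.z v, Metric.mem_ball_self (hP.pos v)⟩
  have hη := eta_ge hκ0 hκ1
  have hη0 : 0 < eta κ := eta_pos hκ0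
  have hfinal := blk_count (N := 292) (z := P.z) (r := P.r) (R := trad Q δ) (w := w)
    (c := eta κ) (T0 := s) (A := A) (e := 15 * δ) (W := (31 * δ) ^ 2) hP.pos
    (trad_nonneg hQG hδ0.le) hPu hη0 hs0 (by positivity) hA1 (by
      have h1 : 32 / eta κ ≤ 32 / (7 / 10 * κ) := by gcongr
      have h2 : A = 64 / κ := by rw [eq_div_iff hκ0.ne', hκA]
      have h3 : 16 ≤ 16 / κ := by
        rw [le_div_iff₀ hκ0]; linarith
      have h4 : 32 / (7 / 10 * κ) = (320 / 7) / κ := by field_simp; norm_num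
      have h5 : 16 / κ + (320 / 7) / κ < 64 / κ := by
        rw [← add_div]
        gcongr
        norm_num
      rw [h2]
      linarith) (by positivity) (trad_sum hQG hδ0) (by
      intro t ht0 ht1
      have hw' : dist (P.z v0) w < t := by
        rw [hPz, dist_comm]; linarith
      have hw'' : t ≤ dist (P.z vf) w := by
        have h1 : ‖P.z vf‖ ≤ dist (P.z vf) w + dist w 0 := by
          rw [← dist_zero_right]; exact dist_triangle _ _ _
        linarith
      exact circle_bound_hit hP hQG hSP hsc hcarr hδ0 hv0 h0 hI hH hfin hvf (by linarith) hw' hw'')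
  have h7 : 0 < δ ^ 2 := by positivity
  norm_num at hfinal
  nlinarith

end Pool.Agent.H99.KX
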