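import Pool.Agent.H74.Koebe.Crossing

/-! The chain of discs hit by a circle around a point outside the carrier. -/

namespace Pool.Agent.H99.KX

open Pool.Agent.H74.Koebe

universe u

variable {V : Type u} {K : OComplex V} {P : Circles V} {κ : ℝ}

open OComplex

/-- The closed disc of `v` meets the circle of radius `t` about `w`. -/
def hit (P : Circles V) (w : ℂ) (t : ℝ) (v : V) : Prop := |dist (P.z v) w - t| ≤ P.r v

/-- One step between discs hit by the circle. -/
def hstep (K : OComplex V) (P : Circles V) (w : ℂ) (t : ℝ) (x y : V) : Prop :=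
  K.adj x y ∧ K.Interior y ∧ hit P w t y

lemma hit_of_mem {w q : ℂ} {t : ℝ} {v : V} (h : dist q w = t) (hq : dist q (P.z v) ≤ P.r v) :
    hit P w t v := by
  unfold hit
  rw [← h]
  have h1 := abs_dist_sub_le (P.z v) q w
  rw [dist_comm (P.z v) q] at h1
  linarith

lemma hit_point {w : ℂ} {t : ℝ} {v : V} (ht : 0 < t) (hne : P.z v ≠ w) (h : hit P w t v) :
    ∃ q, dist q w = t ∧ dist q (P.z v) ≤ P.r v := by
  have hd : 0 < ‖P.z v - w‖ := norm_pos_iff.2 (sub_ne_zero.2 hne)
  refine ⟨w + ((t / ‖P.z v - w‖ : ℝ) : ℂ) * (P.z v - w), ?_, ?_⟩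
  · rw [dist_eq_norm, add_sub_cancel_left, norm_mul, Complex.norm_real, Real.norm_eq_abs,
      abs_of_pos (by positivity), div_mul_cancel₀ _ hd.ne']
  · have h1 : w + ((t / ‖P.z v - w‖ : ℝ) : ℂ) * (P.z v - w) - P.z v =
        ((t / ‖P.z v - w‖ - 1 : ℝ) : ℂ) * (P.z v - w) := by
      push_cast; ring
    rw [dist_eq_norm, h1, norm_mul, Complex.norm_real, Real.norm_eq_abs]
    have h2 : |t / ‖P.z v - w‖ - 1| * ‖P.z v - w‖ = |dist (P.z v) w - t| := by
      have h3 : t / ‖P.z v - w‖ - 1 = (t - ‖P.z v - w‖) / ‖P.z v - w‖ := by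
        field_simp
      rw [h3, abs_div, abs_of_pos hd, div_mul_cancel₀ _ hd.ne', dist_eq_norm, abs_sub_comm]
    rw [h2]
    exact h

lemma interior_nbr_finite {v : V} (h : K.Interior v) : {x | K.adj v x}.Finite := by
  obtain ⟨n, w, -, -, -, -, hn⟩ := h
  apply ((Set.finite_Iio n).image w).subset
  intro x hx
  obtain ⟨i, hi, rfl⟩ := hn x hx
  exact ⟨i, hi, rfl⟩

/-- The crossing lemma for hit discs: from an interior hit disc one reaches a terminal vertex. -/
theorem crossing_hit (hG : Good K P) (hS : Star κ K P) (hsc : K.SimplyConnected) {w : ℂ}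
    (hw : w ∉ carr K P) {t : ℝ} (ht : 0 < t) {T : V → Prop} (hfin : {v | ¬ T v}.Finite)
    (hT : ∀ v, ¬ T v → K.Interior v ∧ ∀ x, K.adj v x → K.Interior x) {x0 : V}
    (hx0 : hit P w t x0) :
    ∃ x, Relation.ReflTransGen (hstep K P w t) x0 x ∧ T x := by
  by_contra hcon
  push Not at hcon
  have he := eta_pos hS.pos
  set C : Set V := {x | Relation.ReflTransGen (hstep K P w t) x0 x} with hC
  have hCT : ∀ x ∈ C, ¬ T x := fun x hx => hcon x hx
  have hCfin : C.Finite := hfin.subset hCT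
  have hCI : ∀ x ∈ C, K.Interior x := fun x hx => (hT x (hCT x hx)).1
  have hadj : ∀ v ∈ C, ∀ x, K.adj v x → hit P w t x → x ∈ C := fun v hv x hvx hx =>
    Relation.ReflTransGen.tail hv ⟨hvx, (hT v (hCT v hv)).2 x hvx, hx⟩
  set A : Set ℝ := {φ | ∃ v a b, v ∈ C ∧ K.face v a b ∧ cpt w t φ ∈ tri P v a b} with hA
  have hcov : ∀ v ∈ C, ∀ φ, dist (cpt w t φ) (P.z v) ≤ (1 + eta κ) * P.r v → φ ∈ A := by
    intro v hv φ hφ
    obtain ⟨a, b, hf, hm⟩ := hS.cover' (hG.pos v) (hCI v hv) hφ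
    exact ⟨v, a, b, hv, hf, hm⟩
  have hne : A.Nonempty := by
    have hx0C : x0 ∈ C := Relation.ReflTransGen.refl
    have hzw : P.z x0 ≠ w := by
      intro h0
      obtain ⟨a, b, hf, hm⟩ := hS.cover' (hG.pos x0) (hCI x0 hx0C) (q := w) (by
        rw [← h0, dist_self]
        have := hG.pos x0
        positivity)
      exact hw (mem_carr hf hm)
    obtain ⟨q, hq, hq'⟩ := hit_point ht hzw hx0
    obtain ⟨φ, hφ⟩ := exists_cpt hq
    refine ⟨φ, hcov x0 hx0C φ ?_⟩
    rw [hφ]
    have := hG.pos x0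
    nlinarith
  have hclosed : IsClosed A := by
    have hAeq : A = cpt w t ⁻¹' (⋃ s ∈ {s : V × V × V | s.1 ∈ C ∧ K.face s.1 s.2.1 s.2.2},
        tri P s.1 s.2.1 s.2.2) := by
      ext φ
      simp only [hA, Set.mem_ofPred_eq, Set.mem_preimage, Set.mem_iUnion, exists_prop, Prod.exists]
      constructor
      · rintro ⟨v, a, b, h1, h2, h3⟩
        exact ⟨v, a, b, ⟨h1, h2⟩, h3⟩
      · rintro ⟨v, a, b, ⟨h1, h2⟩, h3⟩
        exact ⟨v, a, b, h1, h2, h3⟩
    rw [hAeq]
    apply IsClosed.preimage (cpt_continuous w t)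
    apply Set.Finite.isClosed_biUnion
    · have hN : (⋃ v ∈ C, {x | K.adj v x}).Finite :=
        Set.Finite.biUnion hCfin fun v hv => interior_nbr_finite (hCI v hv)
      apply (hCfin.prod (hN.prod hN)).subset
      rintro ⟨v, a, b⟩ ⟨h1, h2⟩
      exact ⟨h1, Set.mem_biUnion h1 (adj_of_face h2), Set.mem_biUnion h1 (adj_of_face' h2)⟩
    · intro s _
      exact tri_closed _ _ _
  have hopen : IsOpen A := by
    rw [isOpen_iff_eventually]
    rintro φ ⟨v, a, b, hv, hf, hm⟩
    set q := cpt w t φ with hq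
    have hqt : dist q w = t := dist_cpt ht.le φ
    have hcorner : ∀ x, isCorner v a b x → dist q (P.z x) ≤ P.r x → ∀ᶠ φ' in nhds φ, φ' ∈ A := by
      intro x hx hd
      have hxC : x ∈ C := by
        rcases isCorner_adj hf (Or.inl rfl) hx with h | h
        · exact h ▸ hv
        · exact hadj v hv x h (hit_of_mem hqt hd)
      have h0 : 0 < eta κ * P.r x := by
        have := hG.pos x
        positivity
      have e4 : ∀ᶠ φ' in nhds φ, dist (cpt w t φ') (cpt w t φ) < eta κ * P.r x :=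
        (cpt_continuous w t).continuousAt.eventually (Metric.ball_mem_nhds _ h0)
      filter_upwards [e4] with φ' h4
      apply hcov x hxC φ'
      have := dist_triangle (cpt w t φ') q (P.z x)
      linarith
    have hedge : ∀ x y, isCorner v a b x → isCorner v a b y → K.adj x y →
        q ∈ segment ℝ (P.z x) (P.z y) → ∀ᶠ φ' in nhds φ, φ' ∈ A := by
      intro x y hx hy hxy hseg
      rcases seg_disc hG hxy hseg with h | h
      · exact hcorner x hx h
      · exact hcorner y hy h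
    have hor := hG.ori hf
    have hm' := (mem_tri_iff hor q).1 hm
    rcases eq_or_lt_of_le hm'.1 with h1 | h1
    · exact hedge v a (Or.inl rfl) (Or.inr (Or.inl rfl)) (adj_of_face hf)
        (mem_edge hor h1.symm hm'.2.1 hm'.2.2)
    rcases eq_or_lt_of_le hm'.2.1 with h2 | h2
    · refine hedge a b (Or.inr (Or.inl rfl)) (Or.inr (Or.inr rfl)) (adj_of_face (K.rot hf)) ?_
      refine mem_edge (c := P.z v) ?_ h2.symm hm'.2.2 hm'.1
      rw [cr_rot]; exact hor
    rcases eq_or_lt_of_le hm'.2.2 with h3 | h3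
    · refine hedge b v (Or.inr (Or.inr rfl)) (Or.inl rfl) (adj_of_face (K.rot (K.rot hf))) ?_
      refine mem_edge (c := P.z a) ?_ h3.symm hm'.1 hm'.2.1
      rw [cr_rot, cr_rot]; exact hor
    have hc := cpt_continuous w t
    have e1 : ∀ᶠ φ' in nhds φ, 0 < cr (P.z a - P.z v) (cpt w t φ' - P.z v) :=
      ((cr_cont _ _).comp hc).continuousAt.eventually (lt_mem_nhds h1)
    have e2 : ∀ᶠ φ' in nhds φ, 0 < cr (P.z b - P.z a) (cpt w t φ' - P.z a) :=
      ((cr_cont _ _).comp hc).continuousAt.eventually (lt_mem_nhds h2)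
    have e3 : ∀ᶠ φ' in nhds φ, 0 < cr (P.z v - P.z b) (cpt w t φ' - P.z b) :=
      ((cr_cont _ _).comp hc).continuousAt.eventually (lt_mem_nhds h3)
    filter_upwards [e1, e2, e3] with φ' k1 k2 k3
    exact ⟨v, a, b, hv, hf, (mem_tri_iff hor _).2 ⟨k1.le, k2.le, k3.le⟩⟩
  have huniv : A = Set.univ := IsClopen.eq_univ ⟨hclosed, hopen⟩ hne
  apply no_circle hG hS hsc hw ht
  intro φ
  have : φ ∈ A := by rw [huniv]; trivial
  obtain ⟨v, a, b, hv, hf, hm⟩ := this
  have h1 := hT v (hCT v hv)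
  exact ⟨v, a, b, hf, h1.1, h1.2 a (adj_of_face hf), h1.2 b (adj_of_face' hf), hm⟩

end Pool.Agent.H99.KX
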